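import Pool.Agent.H74.OneP.Stmts

/-!
# Project ONEP, module E3: no crossing
-/

set_option autoImplicit false

namespace Pool.Agent.H74.OneP

open Equiv Equiv.Perm Drawing

namespace E3aux

variable {M : Drawing}

theorem nxt3 (hC : CornerStmt) (G : M.Good) (h0 : ∀ d : M.D, ¬ M.cr d) (e : M.D) :
    M.nxt (M.nxt e) = M.rev (M.rot e) := by
  have h := (hC M G e (fun e' _ => ⟨h0 e', h0 _⟩)).2
  rcases h with h | h
  · exact h.2
  · exact absurd h.1 (h0 _)

theorem deg (hD : DegStmt) (G : M.Good) (h0 : ∀ d : M.D, ¬ M.cr d) (e : M.D) :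
    M.rot (M.rot e) = e ∨ M.rot (M.rot (M.rot e)) = e := by
  rcases hD M G e (fun e' _ => ⟨h0 e', h0 _⟩) with h | h | ⟨_, k, hk, _⟩
  · exact Or.inl h
  · exact Or.inr h
  · exact absurd hk (h0 _)

theorem loopless (G : M.Good) (h0 : ∀ d : M.D, ¬ M.cr d) (e : M.D) :
    M.org (M.rev e) ≠ M.org e := by
  have h := G.no_loop (h0 e)
  rwa [far_of_not (h0 _)] at h

theorem multi (G : M.Good) (h0 : ∀ d : M.D, ¬ M.cr d) {d e : M.D} (h1 : M.org d = M.org e)
    (h2 : M.org (M.rev d) = M.org (M.rev e)) : d = e := by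
  apply G.no_multi (h0 d) h1
  rw [far_of_not (h0 _), far_of_not (h0 _)]
  exact h2

theorem rot_rev (hC : CornerStmt) (G : M.Good) (h0 : ∀ d : M.D, ¬ M.cr d) (e : M.D) :
    M.rot (M.rev (M.rot e)) = M.rev (M.nxt e) := by
  rw [← nxt3 hC G h0, rot_nxt]

theorem org_rev_nxt (hC : CornerStmt) (G : M.Good) (h0 : ∀ d : M.D, ¬ M.cr d) (e : M.D) :
    M.org (M.rev (M.nxt e)) = M.org (M.rev (M.rot e)) := by
  rw [← org_nxt, nxt3 hC G h0]

theorem exists_vertex (h0 : ∀ d : M.D, ¬ M.cr d) (d : M.D) : ∃ v, M.org d = Sum.inl v :=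
  (not_cr_iff d).1 (h0 d)

theorem case_two (hC : CornerStmt) (G : M.Good) (h0 : ∀ d : M.D, ¬ M.cr d) (e : M.D)
    (he : M.rot (M.rot e) = e) : Nat.card M.V = 3 := by
  have h1 : M.rev (M.nxt e) = M.nxt (M.rot e) := by
    apply multi G h0
    · rw [org_rev_nxt hC G h0, org_nxt]
    · rw [rev_rev', org_nxt, org_rev_nxt hC G h0, he]
  have h2 : M.rev (M.nxt (M.rot e)) = M.nxt e := by rw [← h1, rev_rev']
  have h3 : M.rot (M.rev (M.rot e)) = M.nxt (M.rot e) := by rw [rot_rev hC G h0, h1]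
  have h4 : M.rot (M.rev e) = M.nxt e := by
    have := rot_rev hC G h0 (M.rot e)
    rwa [he, h2] at this
  have hall : ∀ d : M.D, d = e ∨ d = M.rot e ∨ d = M.nxt e ∨ d = M.nxt (M.rot e) ∨
      d = M.rev e ∨ d = M.rev (M.rot e) := by
    have h5 := M.conn {d | d = e ∨ d = M.rot e ∨ d = M.nxt e ∨ d = M.nxt (M.rot e) ∨
      d = M.rev e ∨ d = M.rev (M.rot e)} ⟨e, Or.inl rfl⟩ (by
        rintro d (rfl | rfl | rfl | rfl | rfl | rfl)
        · exact ⟨by simp, by simp⟩
        · exact ⟨by simp [he], by simp⟩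
        · exact ⟨by simp, by simp [h1]⟩
        · exact ⟨by simp, by simp [h2]⟩
        · exact ⟨by simp [h4], by simp⟩
        · exact ⟨by simp [h3], by simp⟩)
    intro d
    have h6 : d ∈ (Set.univ : Set M.D) := Set.mem_univ d
    rw [← h5] at h6
    exact h6
  obtain ⟨w, hw⟩ := exists_vertex h0 e
  obtain ⟨p, hp⟩ := exists_vertex h0 (M.rev e)
  obtain ⟨q, hq⟩ := exists_vertex h0 (M.rev (M.rot e))
  have hwp : w ≠ p := by
    rintro rfl
    exact loopless G h0 e (by rw [hw, hp])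
  have hwq : w ≠ q := by
    rintro rfl
    exact loopless G h0 (M.rot e) (by rw [org_rot, hw, hq])
  have hpq : p ≠ q := by
    rintro rfl
    exact loopless G h0 (M.nxt e) (by rw [org_rev_nxt hC G h0, org_nxt, hp, hq])
  have hV : ∀ v : M.V, v = w ∨ v = p ∨ v = q := by
    intro v
    obtain ⟨d, hd⟩ := M.org_surj (Sum.inl v)
    rcases hall d with rfl | rfl | rfl | rfl | rfl | rfl
    · left; rw [hw] at hd; exact (Sum.inl_injective hd).symm
    · left; rw [org_rot, hw] at hd; exact (Sum.inl_injective hd).symm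
    · right; left; rw [org_nxt, hp] at hd; exact (Sum.inl_injective hd).symm
    · right; right; rw [org_nxt, hq] at hd; exact (Sum.inl_injective hd).symm
    · right; left; rw [hp] at hd; exact (Sum.inl_injective hd).symm
    · right; right; rw [hq] at hd; exact (Sum.inl_injective hd).symm
  classical
  rw [Nat.card_eq_fintype_card, ← Finset.card_univ]
  have h7 : (Finset.univ : Finset M.V) = {w, p, q} := by
    ext v
    simp only [Finset.mem_univ, Finset.mem_insert, Finset.mem_singleton, true_iff]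
    exact hV v
  rw [h7, Finset.card_eq_three.mpr ⟨w, p, q, hwp, hwq, hpq, rfl⟩]

theorem case_three (hC : CornerStmt) (G : M.Good) (h0 : ∀ d : M.D, ¬ M.cr d)
    (h3 : ∀ e : M.D, M.rot (M.rot (M.rot e)) = e)
    (e : M.D) : KConnected 3 M.graph := by
  set e1 := M.rot e with he1
  set e2 := M.rot e1 with he2
  have hr2 : M.rot e2 = e := h3 e
  have hr0 : M.rot (M.rev e) = M.rev (M.nxt e2) := by
    have := rot_rev hC G h0 e2
    rwa [hr2] at this
  have hr1 : M.rot (M.rev e1) = M.rev (M.nxt e) := rot_rev hC G h0 e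
  have hr2' : M.rot (M.rev e2) = M.rev (M.nxt e1) := rot_rev hC G h0 e1
  have hs : ∀ a : M.D, M.rot (M.rot (M.rev a)) = M.nxt a := by
    intro a
    rw [← rot_nxt, h3]
  have ht0 : M.rot (M.rev (M.nxt e2)) = M.nxt e := by rw [← hr0, hs]
  have ht1 : M.rot (M.rev (M.nxt e)) = M.nxt e1 := by rw [← hr1, hs]
  have ht2 : M.rot (M.rev (M.nxt e1)) = M.nxt e2 := by rw [← hr2', hs]
  have hall : ∀ d : M.D, (d = e ∨ d = e1 ∨ d = e2) ∨ (d = M.rev e ∨ d = M.rev e1 ∨ d = M.rev e2) ∨
      (d = M.nxt e ∨ d = M.nxt e1 ∨ d = M.nxt e2) ∨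
      (d = M.rev (M.nxt e) ∨ d = M.rev (M.nxt e1) ∨ d = M.rev (M.nxt e2)) := by
    have h5 := M.conn {d | (d = e ∨ d = e1 ∨ d = e2) ∨
      (d = M.rev e ∨ d = M.rev e1 ∨ d = M.rev e2) ∨
      (d = M.nxt e ∨ d = M.nxt e1 ∨ d = M.nxt e2) ∨
      (d = M.rev (M.nxt e) ∨ d = M.rev (M.nxt e1) ∨ d = M.rev (M.nxt e2))}
      ⟨e, Or.inl (Or.inl rfl)⟩ (by
        rintro d ((hd | hd | hd) | (hd | hd | hd) | (hd | hd | hd) | (hd | hd | hd))
        · rw [hd]; exact ⟨by simp [← he1], by simp⟩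
        · rw [hd]; exact ⟨by simp [← he2], by simp⟩
        · rw [hd]; exact ⟨by simp [hr2], by simp⟩
        · rw [hd]; exact ⟨by simp [hr0], by simp⟩
        · rw [hd]; exact ⟨by simp [hr1], by simp⟩
        · rw [hd]; exact ⟨by simp [hr2'], by simp⟩
        · rw [hd]; exact ⟨by simp, by simp⟩
        · rw [hd]; exact ⟨by simp, by simp⟩
        · rw [hd]; exact ⟨by simp, by simp⟩
        · rw [hd]; exact ⟨by simp [ht1], by simp⟩
        · rw [hd]; exact ⟨by simp [ht2], by simp⟩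
        · rw [hd]; exact ⟨by simp [ht0], by simp⟩)
    intro d
    have h6 : d ∈ (Set.univ : Set M.D) := Set.mem_univ d
    rw [← h5] at h6
    exact h6
  obtain ⟨w, hw⟩ := exists_vertex h0 e
  obtain ⟨x0, hx0⟩ := exists_vertex h0 (M.rev e)
  obtain ⟨x1, hx1⟩ := exists_vertex h0 (M.rev e1)
  obtain ⟨x2, hx2⟩ := exists_vertex h0 (M.rev e2)
  have ow1 : M.org e1 = Sum.inl w := by rw [he1, org_rot, hw]
  have ow2 : M.org e2 = Sum.inl w := by rw [he2, org_rot, ow1]
  have on0 : M.org (M.nxt e) = Sum.inl x0 := by rw [org_nxt, hx0]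
  have on1 : M.org (M.nxt e1) = Sum.inl x1 := by rw [org_nxt, hx1]
  have on2 : M.org (M.nxt e2) = Sum.inl x2 := by rw [org_nxt, hx2]
  have om0 : M.org (M.rev (M.nxt e)) = Sum.inl x1 := by rw [org_rev_nxt hC G h0, ← he1, hx1]
  have om1 : M.org (M.rev (M.nxt e1)) = Sum.inl x2 := by rw [org_rev_nxt hC G h0, ← he2, hx2]
  have om2 : M.org (M.rev (M.nxt e2)) = Sum.inl x0 := by rw [org_rev_nxt hC G h0, hr2, hx0]
  have hadj : ∀ (d : M.D) (u v : M.V), M.org d = Sum.inl u → M.org (M.rev d) = Sum.inl v →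
      M.graph.Adj u v := by
    intro d u v hu hv
    rw [graph_adj_iff G.simple]
    exact ⟨d, h0 d, hu, by rw [far_of_not (h0 _)]; exact hv⟩
  have hw0 := hadj e w x0 hw hx0
  have hw1 := hadj e1 w x1 ow1 hx1
  have hw2 := hadj e2 w x2 ow2 hx2
  have h01 := hadj (M.nxt e) x0 x1 on0 om0
  have h12 := hadj (M.nxt e1) x1 x2 on1 om1
  have h20 := hadj (M.nxt e2) x2 x0 on2 om2
  have hV : ∀ v : M.V, v = w ∨ v = x0 ∨ v = x1 ∨ v = x2 := by
    intro v
    obtain ⟨d, hd⟩ := M.org_surj (Sum.inl v)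
    have key : ∀ u : M.V, M.org d = Sum.inl u → v = u := by
      intro u hu
      rw [hu] at hd
      exact (Sum.inl_injective hd).symm
    rcases hall d with (h | h | h) | (h | h | h) | (h | h | h) | (h | h | h)
    · left; exact key _ (h ▸ hw)
    · left; exact key _ (h ▸ ow1)
    · left; exact key _ (h ▸ ow2)
    · right; left; exact key _ (h ▸ hx0)
    · right; right; left; exact key _ (h ▸ hx1)
    · right; right; right; exact key _ (h ▸ hx2)
    · right; left; exact key _ (h ▸ on0)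
    · right; right; left; exact key _ (h ▸ on1)
    · right; right; right; exact key _ (h ▸ on2)
    · right; right; left; exact key _ (h ▸ om0)
    · right; right; right; exact key _ (h ▸ om1)
    · right; left; exact key _ (h ▸ om2)
  have hcomp : ∀ u v : M.V, u ≠ v → M.graph.Adj u v := by
    intro u v huv
    rcases hV u with rfl | rfl | rfl | rfl <;> rcases hV v with rfl | rfl | rfl | rfl
    all_goals first
      | exact absurd rfl huv
      | assumption
      | (apply SimpleGraph.Adj.symm; assumption)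
  have hcard : 3 < Nat.card M.V := by
    classical
    rw [Nat.card_eq_fintype_card, ← Finset.card_univ]
    have h7 : ({w, x0, x1, x2} : Finset M.V).card = 4 := by
      rw [Finset.card_insert_of_notMem, Finset.card_insert_of_notMem,
        Finset.card_insert_of_notMem, Finset.card_singleton]
      · simp [h12.ne]
      · simp [h01.ne, h20.ne.symm]
      · simp [hw0.ne, hw1.ne, hw2.ne]
    calc 3 < ({w, x0, x1, x2} : Finset M.V).card := by omega
      _ ≤ _ := Finset.card_le_card (Finset.subset_univ _)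
  refine ⟨hcard, fun S hS => ?_⟩
  have hne : ∃ v : M.V, v ∉ S := by
    by_contra hcon
    have h8 : ∀ v : M.V, v ∈ S := fun v => by
      by_contra h9
      exact hcon ⟨v, h9⟩
    have h10 : Nat.card M.V ≤ S.card := by
      rw [Nat.card_eq_fintype_card, ← Finset.card_univ]
      exact Finset.card_le_card (fun v _ => h8 v)
    omega
  obtain ⟨v0, hv0⟩ := hne
  have : Nonempty {v : M.V | v ∉ S} := ⟨⟨v0, hv0⟩⟩
  refine SimpleGraph.Connected.mk ?_
  intro u v
  by_cases huv : u = v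
  · rw [huv]
  · apply SimpleGraph.Adj.reachable
    exact hcomp u.1 v.1 (fun h => huv (Subtype.ext h))

end E3aux

open E3aux in
/-- Module E3. -/
theorem e3 (_ : VisitStmt) (hC : CornerStmt) (hD : DegStmt) : PlanarStmt := by
  intro M G h3 hX
  have h0 : ∀ d : M.D, ¬ M.cr d := fun d hd => hX ⟨d, hd⟩
  by_cases h : ∃ e : M.D, M.rot (M.rot e) = e
  · obtain ⟨e, he⟩ := h
    exact case_two hC G h0 e he
  · exfalso
    have h2 : ∀ e : M.D, M.rot (M.rot e) ≠ e := fun e he => h ⟨e, he⟩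
    have h3' : ∀ e : M.D, M.rot (M.rot (M.rot e)) = e := fun e =>
      (deg hD G h0 e).resolve_left (h2 e)
    have hne : Nonempty M.V := by
      have h4 := G.conn2.1
      have h5 : 0 < Nat.card M.V := by omega
      exact (Nat.card_pos_iff.mp h5).1
    obtain ⟨v⟩ := hne
    obtain ⟨e, -⟩ := M.org_surj (Sum.inl v)
    exact h3 (case_three hC G h0 h3' e)

end Pool.Agent.H74.OneP
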